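import Pool.Agent.Lib.MP_6bc78b_nt.MS.P1.Iface
import Pool.Agent.Lib.MP_6bc78b_nt.MS.P4.Iface2

/-! Project MS, Part V: zeros of large multiplicity, uniform bound `C m^(-(1-ε) m)`. -/

set_option autoImplicit false

open Complex Filter Topology MeasureTheory ArithmeticFunction

namespace Pool.Agent.Lib.MP_6bc78b_nt.MS.P5

open Pool.Agent.Lib.MP_6bc78b_nt.MS.P1

/-- `bb` restricted to the primes. -/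
noncomputable def bp (lam T : ℝ) : ArithmeticFunction ℝ :=
  ⟨fun n => if n.Prime then bb lam T n else 0, by simp⟩

/-- The prime polynomial. -/
noncomputable def BP (lam T : ℝ) (s : ℂ) : ℂ := dpoly (bp lam T) (T ^ lam) s

/-- `∑ (b^{*k}(n))^2/n`, over all `n ≤ T`. -/
noncomputable def SQ (lam T : ℝ) (k : ℕ) : ℝ :=
  ∑ n ∈ Finset.Icc 1 ⌊T⌋₊, ((bp lam T) ^ k) n ^ 2 / (n : ℝ)

/-- PTU (needs RH): the pointwise inequality, uniformly in `lam`. -/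
def PtuStatement : Prop := ∃ C T0 : ℝ, 0 < C ∧ 3 < T0 ∧ ∀ T lam : ℝ, T0 ≤ T →
  1 / Real.log T ≤ lam → lam ≤ 9 / 10 → ∀ γ ∈ zset T,
    (BB lam T (1 / 2 + γ * I)).re ≤ 1 / (2 * lam) - (mz γ : ℝ) / 2 + C / (lam * Real.log T)

/-- PPW: proper prime powers contribute `O(1)` on the critical line. -/
def PpwStatement : Prop := ∃ C : ℝ, 0 < C ∧ ∀ T lam t : ℝ, 3 ≤ T → 1 / Real.log T ≤ lam →
  ‖BB lam T (1 / 2 + t * I) - BP lam T (1 / 2 + t * I)‖ ≤ C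

/-- SIG: the variance. -/
def SigStatement : Prop := ∃ C : ℝ, 0 < C ∧ ∀ T lam : ℝ, 3 ≤ T → 1 / Real.log T ≤ lam →
  ∑ p ∈ Finset.Icc 1 ⌊T ^ lam⌋₊, bp lam T p ^ 2 / (p : ℝ) ≤ C ∧
  ∀ n : ℕ, 0 ≤ bp lam T n ∧ bp lam T n ≤ 1

/-- CMB: `∑ (f^{*k}(n))^2/n ≤ k! (∑ f(p)^2/p)^k` for `f ≥ 0` supported on primes `≤ N`.
Proof: `(f^{*k}(n))^2 ≤ k! (f^2)^{*k}(n)` by induction (Cauchy–Schwarz, `n` has at most `k+1`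
prime divisors `p` with `f^{*k}(n/p) ≠ 0`). -/
def CmbStatement : Prop := ∀ (f : ArithmeticFunction ℝ) (N M k : ℕ), (∀ n, 0 ≤ f n) →
  (∀ n, f n ≠ 0 → n.Prime ∧ n ≤ N) →
    ∑ n ∈ Finset.Icc 1 M, (f ^ k) n ^ 2 / (n : ℝ) ≤
      (k.factorial : ℝ) * (∑ p ∈ Finset.Icc 1 N, f p ^ 2 / (p : ℝ)) ^ k

/-- MVF: mean value with the Gaussian weight, `b ≥ 0` supported on `n ≤ T^(1-δ)`. -/
def MvfStatement : Prop := ∀ δ A : ℝ, 0 < δ → ∃ T0 : ℝ, 3 ≤ T0 ∧ ∀ T : ℝ, T0 ≤ T →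
  ∀ b : ℕ → ℝ, (∀ n, 0 ≤ b n ∧ b n ≤ T ^ A) →
    (1 / (2 * Real.pi)) * ∫ t : ℝ, ‖∑ n ∈ Finset.Icc 1 ⌊T ^ (1 - δ)⌋₊,
      (b n : ℂ) * (n : ℂ) ^ (-(1 / 2 + t * I : ℂ))‖ ^ 2 * MS.wt T t ≤
    cG T * ∑ n ∈ Finset.Icc 1 ⌊T ^ (1 - δ)⌋₊, b n ^ 2 / (n : ℝ) + 1 / T

/-- MOV: the `ω`-integral may be moved to the critical line. -/
def MovStatement : Prop := ∀ A c : ℝ, 1 < c → c < 3 / 2 → ∀ᶠ T : ℝ in atTop, ∀ F : ℂ → ℂ,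
  DifferentiableOn ℂ F (SB T) → (∀ s ∈ SB T, ‖F s‖ ≤ T ^ A) →
    ‖VF c T (fun s => om s * F s * WW T s) - VF (1 / 2) T (fun s => om s * F s * WW T s)‖ ≤ 1

/-- MOMK: moments over the zeros, uniformly in `k` and `lam`. -/
def MomkStatement : Prop := ∀ δ : ℝ, 0 < δ → δ < 1 → ∃ C T0 : ℝ, 0 < C ∧ 3 < T0 ∧ ∀ T lam : ℝ,
  ∀ k : ℕ, T0 ≤ T → 1 / Real.log T ≤ lam → k * lam ≤ 1 - δ →
    (ZS T (fun s => BP lam T s ^ k * (starRingEnd ℂ) (BP lam T s ^ k))).re ≤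
      2 * (cG T * Real.log T) * SQ lam T k + C

/-- MAXM (from PTU): the largest multiplicity. -/
def MaxmStatement : Prop := ∀ᶠ T : ℝ in atTop, ∀ γ ∈ zset T,
  (mz γ : ℝ) ≤ 3 / 5 * Real.log T / Real.log (Real.log T)

/-- DEV: the weighted number of zeros of multiplicity at least `m`. -/
def DevStatement : Prop := ∀ ε : ℝ, 0 < ε → ε < 1 → ∃ C T0 : ℝ, 0 < C ∧ 3 < T0 ∧
  ∀ (T : ℝ) (m : ℕ), T0 ≤ T → 1 ≤ m →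
    ∑ᶠ γ ∈ {γ | γ ∈ zset T ∧ m ≤ mz γ}, (mz γ : ℝ) * MS.wt T γ ≤
      (cG T * Real.log T) * (C ^ m * (m : ℝ) ^ (-(1 - ε) * (m : ℝ)))

/-- CNT: from weighted inequalities to counts, uniformly in `b` and `κ` (cover by windows). -/
def CntStatement : Prop := ∀ X1 : ℝ, 3 ≤ X1 → ∃ C : ℝ, 0 < C ∧ ∀ (b : ℝ → ℝ) (κ : ℝ),
  (∀ γ, 0 ≤ b γ) → 0 ≤ κ →
  (∀ T : ℝ, X1 ≤ T → ∑ᶠ γ ∈ zset T, b γ * MS.wt T γ ≤ κ * (cG T * Real.log T)) →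
  ∀ X : ℝ, X1 ≤ X → Nb b X ≤ Nb b X1 + C * κ * (X * Real.log X)

/-- FINK: the final statement of Part V. -/
def FinkStatement : Prop := ∀ ε : ℝ, 0 < ε → ε < 1 → ∃ C T0 : ℝ, ∀ (T : ℝ) (m : ℕ),
  T0 ≤ T → 1 ≤ m → NZm m T ≤ C * (m : ℝ) ^ (-(1 - ε) * (m : ℝ)) * NZ T

end Pool.Agent.Lib.MP_6bc78b_nt.MS.P5
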