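import Pool.Agent.Lib.MP_6bc78b_nt.MS.P5.Pre
import Pool.Agent.Lib.MP_6bc78b_nt.MS.P5.H27.PTU
import Pool.Agent.Lib.MP_6bc78b_nt.MS.P5.H23.MVF
import Pool.Agent.Lib.MP_6bc78b_nt.MS.P5.H51.Mov
import Pool.Agent.Lib.MP_6bc78b_nt.MS.P5.H59.Momk
import Pool.Agent.Lib.MP_6bc78b_nt.MS.P1.EDG1

/-! Project MS, Part V: the final theorem. -/

set_option autoImplicit false

namespace Pool.Agent.Lib.MP_6bc78b_nt.MS.P5

open Pool.Agent.Lib.MP_6bc78b_nt.MS Pool.Agent.Lib.MP_6bc78b_nt.MS.P1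

/-- Part V under the Riemann hypothesis. -/
theorem fink (hRH : RiemannHypothesis) : FinkStatement :=
  fink_of (H27.ptu hRH)
    (H59.momk (zsfF hRH) (P1.tail GAU.gau DDF.ddf) (P1.edg1 GAU.gau SWAP.swap DDF.ddf) CHO.cho
      LSER.lser H23.mvf (H51.mov CHI.chi CHO.cho GAU.gau DDF.ddf) CHI.chi DDF.ddf) hRH

end Pool.Agent.Lib.MP_6bc78b_nt.MS.P5
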