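import Pool.Agent.Lib.MP_6bc78b_nt.MS.P5.H16.Sig
import Pool.Agent.Lib.MP_6bc78b_nt.MS.P5.H22.PPW
import Pool.Agent.Lib.MP_6bc78b_nt.MS.P5.H40.Fink
import Pool.Agent.Lib.MP_6bc78b_nt.MS.P5.H70.CNT
import Pool.Agent.Lib.MP_6bc78b_nt.MS.P5.H70.DEV
import Pool.Agent.Lib.MP_6bc78b_nt.MS.P5.H91.Maxm
import Pool.Agent.Lib.MP_6bc78b_nt.MS.P5.H97.Cmb
import Pool.Agent.Lib.MP_6bc78b_nt.MS.P4.H75.Av
import Pool.Agent.Lib.MP_6bc78b_nt.MS.P4.H05.Ker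
import Pool.Agent.Lib.MP_6bc78b_nt.MS.P4.H84.Nas
import Pool.Agent.Lib.MP_6bc78b_nt.MS.P1.GAU
import Pool.Agent.Lib.MP_6bc78b_nt.MS.P1.DDF
import Pool.Agent.Lib.MP_6bc78b_nt.MS.P1.CHI
import Pool.Agent.Lib.MP_6bc78b_nt.MS.P1.OML
import Pool.Agent.Lib.MP_6bc78b_nt.MS.P1.TAIL
import Pool.Agent.Lib.MP_6bc78b_nt.MS.P1.MOM
import Pool.Agent.Lib.MP_6bc78b_nt.MS.P1.SWAP
import Pool.Agent.Lib.MP_6bc78b_nt.MS.P1.OM1
import Pool.Agent.Lib.MP_6bc78b_nt.MS.P1.LSER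
import Pool.Agent.Lib.MP_6bc78b_nt.MS.P1.H74.Edg0
import Pool.Agent.Lib.MP_6bc78b_nt.MS.P1.ZSF
import Pool.Agent.Lib.MP_6bc78b_nt.MS.P1.ZN

/-! Project MS, Part V: assembly of everything except the uniform pointwise inequality and the
moments. -/

set_option autoImplicit false

namespace Pool.Agent.Lib.MP_6bc78b_nt.MS.P5

open Pool.Agent.Lib.MP_6bc78b_nt.MS Pool.Agent.Lib.MP_6bc78b_nt.MS.P1

/-- The zero-sum formula under RH. -/
theorem zsfF (hRH : RiemannHypothesis) : ZeroSumStatement :=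
  ZSF.zsf hRH CHI.chi CHO.cho GAU.gau DDF.ddf

/-- The number of zeros, weighted, under RH. -/
theorem znF (hRH : RiemannHypothesis) : ZNStatement :=
  ZN.zn (zsfF hRH) (P1.H74.edg0 GAU.gau SWAP.swap DDF.ddf)
    (OM1.om1 (OML.oml CHO.cho) CHO.cho GAU.gau (MOM.mom GAU.gau DDF.ddf))
    (P1.tail GAU.gau DDF.ddf) LSER.lser (OML.oml CHO.cho)

/-- The asymptotic number of zeros under RH. -/
theorem nasF (hRH : RiemannHypothesis) : NasStatement :=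
  P4.H84.nas (znF hRH) (P4.H75.av P4.H05.ker P4.H30.zfac) P4.H30.zfac

/-- The final statement of Part V from the two remaining modules. -/
theorem fink_of (hptu : PtuStatement) (hmomk : MomkStatement) (hRH : RiemannHypothesis) :
    FinkStatement :=
  H40.fink (H70.dev hptu H22.ppw sig H97.cmb hmomk (H91.maxm hptu)) (H70.cnt P4.H30.zfac)
    (nasF hRH) P4.H30.zfac

end Pool.Agent.Lib.MP_6bc78b_nt.MS.P5
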